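import Mathlib
import Pool.Agent.helper6.EV.Spec

set_option autoImplicit false

namespace Pool.Agent.EV

open N1f72dd46 Filter MeasureTheory Complex Metric Pool.Agent.helper6.LD

/-- primes in `(x, y]` -/
noncomputable def MA_P (x y : ℝ) : Finset ℕ := (Finset.Ioc ⌊x⌋₊ ⌊y⌋₊).filter Nat.Prime

lemma MA_card {x y : ℝ} (hxy : x ≤ y) : ((MA_P x y).card : ℝ) = pc y - pc x := by
  have hf : ⌊x⌋₊ ≤ ⌊y⌋₊ := Nat.floor_mono hxy
  have h1 : Nat.primeCounting ⌊y⌋₊ = Nat.primeCounting ⌊x⌋₊ + (MA_P x y).card := by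
    unfold MA_P Nat.primeCounting Nat.primeCounting'
    rw [Nat.count_eq_card_filter_range, Nat.count_eq_card_filter_range]
    rw [← Finset.card_union_of_disjoint]
    · congr 1
      ext m
      simp only [Finset.mem_filter, Finset.mem_range, Finset.mem_union, Finset.mem_Ioc]
      constructor
      · rintro ⟨h1, h2⟩
        by_cases h3 : m ≤ ⌊x⌋₊
        · exact Or.inl ⟨by omega, h2⟩
        · exact Or.inr ⟨⟨by omega, by omega⟩, h2⟩
      · rintro (⟨h1, h2⟩ | ⟨⟨h1, h3⟩, h2⟩)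
        · exact ⟨by omega, h2⟩
        · exact ⟨by omega, h2⟩
    · rw [Finset.disjoint_left]
      intro m hm hm'
      simp only [Finset.mem_filter, Finset.mem_range, Finset.mem_Ioc] at hm hm'
      omega
  unfold pc
  rw [h1]
  push_cast
  ring

lemma MA_mem {x y : ℝ} (hx : 0 ≤ x) (hy : 0 ≤ y) (m : ℕ) :
    m ∈ MA_P x y ↔ m.Prime ∧ x < m ∧ (m : ℝ) ≤ y := by
  unfold MA_P
  rw [Finset.mem_filter, Finset.mem_Ioc, Nat.floor_lt hx, Nat.le_floor_iff hy]
  tauto

lemma MA_inj {A B : Finset ℕ} (h : A.card ≤ B.card) :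
    ∃ f : ℕ → ℕ, (∀ a ∈ A, f a ∈ B) ∧ ∀ a ∈ A, ∀ a' ∈ A, f a = f a' → a = a' := by
  classical
  have h1 : Fintype.card A ≤ Fintype.card B := by simpa using h
  obtain ⟨e⟩ := Function.Embedding.nonempty_of_card_le h1
  refine ⟨fun a => if ha : a ∈ A then (e ⟨a, ha⟩ : ℕ) else 0, ?_, ?_⟩
  · intro a ha
    simp only [ha, dif_pos]
    exact (e ⟨a, ha⟩).2
  · intro a ha a' ha' hE
    simp only [ha, ha', dif_pos] at hE
    have := e.injective (Subtype.ext hE)
    simpa using congrArg Subtype.val this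

theorem MA (hCC : CC_stmt) : MA_stmt := by
  classical
  intro φ C hφ1 hφ2 hC hθ
  obtain ⟨X0, hX0, hcc⟩ := hCC φ C hφ1 hφ2 hC hθ
  set κ : ℝ := (1 - φ) / 8 with hκ
  have hκ0 : 0 < κ := by rw [hκ]; linarith
  have hκ1 : κ ≤ 1 / 16 := by rw [hκ]; linarith
  set X1 : ℝ := max X0 ((2 : ℝ) ^ (1 / (2 * κ))) with hX1
  refine ⟨⌈X1 ^ 2⌉₊, ?_⟩
  intro n X hn hX hXn
  have hX10 : 0 ≤ X1 := le_trans (by linarith) (le_max_left _ _)
  have hXX1 : X1 ≤ X := by
    have h1 : X1 ^ 2 ≤ X ^ 2 := by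
      rw [hXn]
      calc X1 ^ 2 ≤ (⌈X1 ^ 2⌉₊ : ℝ) := Nat.le_ceil _
        _ ≤ n := by exact_mod_cast hn
    exact le_of_sq_le_sq h1 hX
  have hXX0 : X0 ≤ X := le_trans (le_max_left _ _) hXX1
  have hX1' : 1 ≤ X := le_trans hX0 hXX0
  have hXpos : 0 < X := by linarith
  have h2X : 2 ≤ X ^ (2 * κ) := by
    have h1 : (2 : ℝ) ^ (1 / (2 * κ)) ≤ X := le_trans (le_max_right _ _) hXX1
    have h2 : ((2 : ℝ) ^ (1 / (2 * κ))) ^ (2 * κ) ≤ X ^ (2 * κ) :=
      Real.rpow_le_rpow (by positivity) h1 (by positivity)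
    rw [← Real.rpow_mul (by norm_num)] at h2
    have h3 : 1 / (2 * κ) * (2 * κ) = 1 := by field_simp
    rw [h3, Real.rpow_one] at h2
    exact h2
  set b0 : ℝ := X ^ (1 - κ) with hb0
  set h : ℝ := X ^ (1 - 3 * κ) with hh
  have hb0pos : 0 < b0 := Real.rpow_pos_of_pos hXpos _
  have hhpos : 0 < h := Real.rpow_pos_of_pos hXpos _
  have h2h : 2 * h ≤ b0 := by
    have h1 : b0 = X ^ (2 * κ) * h := by
      rw [hb0, hh, ← Real.rpow_add hXpos]
      congr 1
      ring
    rw [h1]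
    exact mul_le_mul_of_nonneg_right h2X hhpos.le
  have hnb0 : X ^ 2 / b0 = X ^ (1 + κ) := by
    rw [hb0, ← Real.rpow_natCast, ← Real.rpow_sub hXpos]
    congr 1
    push_cast
    ring
  have hhX : h * X ^ (1 + κ) = X ^ (2 - 2 * κ) := by
    rw [hh, ← Real.rpow_add hXpos]
    congr 1
    ring
  -- the blocks
  set b : ℕ → ℝ := fun j => b0 + j * h with hb
  have hbpos : ∀ j, 0 < b j := by
    intro j
    have : (0 : ℝ) ≤ j * h := by positivity
    simp only [hb]
    linarith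
  have hbge : ∀ j, b0 ≤ b j := by
    intro j
    have : (0 : ℝ) ≤ j * h := by positivity
    simp only [hb]
    linarith
  have hbmono : ∀ i j : ℕ, i ≤ j → b i ≤ b j := by
    intro i j hij
    have h1 : (i : ℝ) ≤ j := by exact_mod_cast hij
    have : (i : ℝ) * h ≤ j * h := mul_le_mul_of_nonneg_right h1 hhpos.le
    simp only [hb]
    linarith
  have hb1 : ∀ j, b (j + 1) = b j + h := by
    intro j
    simp only [hb]
    push_cast
    ring
  have hb2 : ∀ j, b (j + 2) = b j + 2 * h := by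
    intro j
    simp only [hb]
    push_cast
    ring
  have hf : ∀ j : ℕ, ∃ f : ℕ → ℕ, b (j + 2) ≤ X - b0 →
      (∀ a ∈ MA_P (b j) (b (j + 1)), f a ∈ MA_P (X ^ 2 / b (j + 2)) (X ^ 2 / b (j + 1))) ∧
      ∀ a ∈ MA_P (b j) (b (j + 1)), ∀ a' ∈ MA_P (b j) (b (j + 1)), f a = f a' → a = a' := by
    intro j
    by_cases hj : b (j + 2) ≤ X - b0
    · have h1 := hcc X (b j) hXX0 (hbge j) (by rw [← hb2]; exact hj)
      rw [← hb2, ← hb1] at h1
      have h2 : X ^ 2 / b (j + 2) ≤ X ^ 2 / b (j + 1) :=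
        div_le_div_of_nonneg_left (by positivity) (hbpos _) (hbmono _ _ (by omega))
      rw [← MA_card (hbmono j (j + 1) (by omega)), ← MA_card h2] at h1
      obtain ⟨f, hf1, hf2⟩ := MA_inj (by exact_mod_cast h1 :
        (MA_P (b j) (b (j + 1))).card ≤ (MA_P (X ^ 2 / b (j + 2)) (X ^ 2 / b (j + 1))).card)
      exact ⟨f, fun _ => ⟨hf1, hf2⟩⟩
    · exact ⟨fun _ => 0, fun h' => absurd h' hj⟩
  choose f hf using hf
  set J : ℕ → ℕ := fun p => ⌈((p : ℝ) - b0) / h⌉₊ - 1 with hJ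
  -- facts on J
  have hJp : ∀ p : ℕ, Mt κ X p → b (J p) < p ∧ (p : ℝ) ≤ b (J p + 1) ∧ b (J p + 2) ≤ X - b0 := by
    intro p hp
    obtain ⟨hp1, hp2, hp3⟩ := hp
    have h1 : 0 < ((p : ℝ) - b0) / h := div_pos (by linarith) hhpos
    have h2 : 0 < ⌈((p : ℝ) - b0) / h⌉₊ := Nat.ceil_pos.mpr h1
    have h3 : ((J p : ℕ) : ℝ) + 1 = (⌈((p : ℝ) - b0) / h⌉₊ : ℝ) := by
      have : J p + 1 = ⌈((p : ℝ) - b0) / h⌉₊ := by
        simp only [hJ]
        omega
      rw [← this]
      push_cast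
      ring
    have h4 : ((p : ℝ) - b0) / h ≤ (J p : ℝ) + 1 := by rw [h3]; exact Nat.le_ceil _
    have h5 : (J p : ℝ) < ((p : ℝ) - b0) / h := by
      have := Nat.ceil_lt_add_one h1.le
      rw [← h3] at this
      linarith
    have h6 : b (J p) < p := by
      rw [lt_div_iff₀ hhpos] at h5
      simp only [hb]
      linarith
    have h7 : (p : ℝ) ≤ b (J p + 1) := by
      rw [div_le_iff₀ hhpos] at h4
      simp only [hb]
      push_cast
      linarith
    refine ⟨h6, h7, ?_⟩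
    rw [hb2]
    linarith
  have hPm : ∀ p : ℕ, Mt κ X p → p ∈ MA_P (b (J p)) (b (J p + 1)) := by
    intro p hp
    rw [MA_mem (hbpos _).le (hbpos _).le]
    exact ⟨hp.1, (hJp p hp).1, (hJp p hp).2.1⟩
  have hQm : ∀ p : ℕ, Mt κ X p → (f (J p) p).Prime ∧ X ^ 2 / b (J p + 2) < (f (J p) p : ℝ) ∧
      (f (J p) p : ℝ) ≤ X ^ 2 / b (J p + 1) := by
    intro p hp
    have h1 := (hf (J p) (hJp p hp).2.2).1 p (hPm p hp)
    rw [MA_mem (div_nonneg (by positivity) (hbpos _).le) (div_nonneg (by positivity) (hbpos _).le)]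
      at h1
    exact h1
  refine ⟨fun p => f (J p) p, ?_, ?_, ?_, ?_, ?_, ?_⟩
  · intro p hp
    exact (hQm p hp).1
  · intro p hp
    have h1 := (hQm p hp).2.1
    have h2 := (hJp p hp).2.2
    have h3 : b (J p + 2) ≤ X := by linarith
    have h4 : X ≤ X ^ 2 / b (J p + 2) := by
      rw [le_div_iff₀ (hbpos _)]
      nlinarith
    exact lt_of_le_of_lt h4 h1
  · intro p hp
    have h1 := (hQm p hp).2.2
    have h2 := (hJp p hp).2.1
    have h3 : ((p * f (J p) p : ℕ) : ℝ) ≤ (n : ℝ) := by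
      push_cast
      rw [← hXn]
      calc (p : ℝ) * (f (J p) p : ℝ) ≤ b (J p + 1) * (X ^ 2 / b (J p + 1)) :=
            mul_le_mul h2 h1 (Nat.cast_nonneg _) (hbpos _).le
        _ = X ^ 2 := by
            have := (hbpos (J p + 1)).ne'
            field_simp
    exact_mod_cast h3
  · intro p hp
    have h1 := (hQm p hp).2.1
    have h2 := (hJp p hp).1
    have h3 : b (J p) * (X ^ 2 / b (J p + 2)) ≤ (p : ℝ) * (f (J p) p : ℝ) :=
      mul_le_mul h2.le h1.le (div_nonneg (by positivity) (hbpos _).le) (Nat.cast_nonneg _)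
    have h4 : b (J p) * (X ^ 2 / b (J p + 2)) = X ^ 2 - 2 * h * (X ^ 2 / b (J p + 2)) := by
      have h5 : b (J p) = b (J p + 2) - 2 * h := by rw [hb2]; ring
      have h6 := (hbpos (J p + 2)).ne'
      rw [h5]
      field_simp
    have h5 : X ^ 2 / b (J p + 2) ≤ X ^ (1 + κ) := by
      rw [← hnb0]
      exact div_le_div_of_nonneg_left (by positivity) hb0pos (hbge _)
    have h6 : 2 * h * (X ^ 2 / b (J p + 2)) ≤ 2 * X ^ (2 - 2 * κ) := by
      rw [← hhX]
      nlinarith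
    rw [← hXn]
    linarith
  · intro p hp
    have h1 := (hQm p hp).2.2
    refine h1.trans ?_
    rw [← hnb0]
    exact div_le_div_of_nonneg_left (by positivity) hb0pos (hbge _)
  · intro p p' hp hp' hE
    have hE : f (J p) p = f (J p') p' := hE
    have hJJ : J p = J p' := by
      rcases lt_trichotomy (J p) (J p') with hlt | heq | hgt
      · exfalso
        have h1 := (hQm p hp).2.1
        have h2 := (hQm p' hp').2.2
        have h3 : X ^ 2 / b (J p' + 1) ≤ X ^ 2 / b (J p + 2) :=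
          div_le_div_of_nonneg_left (by positivity) (hbpos _) (hbmono _ _ (by omega))
        rw [hE] at h1
        linarith
      · exact heq
      · exfalso
        have h1 := (hQm p' hp').2.1
        have h2 := (hQm p hp).2.2
        have h3 : X ^ 2 / b (J p + 1) ≤ X ^ 2 / b (J p' + 2) :=
          div_le_div_of_nonneg_left (by positivity) (hbpos _) (hbmono _ _ (by omega))
        rw [hE] at h2
        linarith
    have h1 := (hf (J p) (hJp p hp).2.2).2 p (hPm p hp) p' (by rw [hJJ]; exact hPm p' hp')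
    apply h1
    rw [hE, hJJ]

end Pool.Agent.EV
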